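import Pool.Agent.Run7.h282.PM.Iface

/-!
# Project PM, piece NEAR: almost monotonicity
-/

set_option autoImplicit false

open Finset

namespace Run7.h313.PM

open Run7.h282.PM

section
variable {F : Type} [Field F] [Fintype F] {κ : Type} [Fintype κ] [DecidableEq κ]

lemma A0_mono_at {f g : (Finset κ → F) → ℝ} (y : Finset κ → F)
    (h : ∀ x : κ → F, f (mulv x y) ≤ g (mulv x y)) : A0 F κ f y ≤ A0 F κ g y := by
  unfold A0 Aop
  exact div_le_div_of_nonneg_right (sum_le_sum fun x _ => h x) (by positivity)

lemma A0_add_const (f : (Finset κ → F) → ℝ) (c : ℝ) :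
    A0 F κ (fun y => f y + c) = fun y => A0 F κ f y + c := by
  funext y
  unfold A0 Aop
  rw [sum_add_distrib, add_div]
  congr 1
  rw [sum_const, card_univ, nsmul_eq_mul, Fintype.card_fun]
  push_cast
  rw [mul_comm, mul_div_assoc, div_self, mul_one]
  have : (0 : ℝ) < Fintype.card F := by exact_mod_cast Fintype.card_pos
  positivity

lemma iter_add_const (m : ℕ) (f : (Finset κ → F) → ℝ) (c : ℝ) :
    (A0 F κ)^[m] (fun y => f y + c) = fun y => (A0 F κ)^[m] f y + c := by
  induction m generalizing f with
  | zero => rfl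
  | succ m ih =>
    rw [Function.iterate_succ_apply, Function.iterate_succ_apply, A0_add_const, ih]

/-- monotonicity on homogeneous elements -/
lemma iter_mono_deg (hB : S_BASE) (m : ℕ) : ∀ (d : ℕ) (f g : (Finset κ → F) → ℝ),
    (∀ y, Hom (m + d) y → f y ≤ g y) → ∀ y, Hom d y →
      (A0 F κ)^[m] f y ≤ (A0 F κ)^[m] g y := by
  induction m with
  | zero => intro d f g h y hy; exact h y (by rwa [zero_add])
  | succ m ih =>
    intro d f g h y hy
    rw [Function.iterate_succ_apply, Function.iterate_succ_apply]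
    refine ih d _ _ (fun y' hy' => A0_mono_at y' fun x => h _ ?_) y hy
    have := (hB F κ).2.1 (m + d) x y' hy'
    rwa [show m + 1 + d = m + d + 1 by ring]

lemma iter_mono (m : ℕ) : ∀ (f g : (Finset κ → F) → ℝ), (∀ y, f y ≤ g y) → ∀ y,
    (A0 F κ)^[m] f y ≤ (A0 F κ)^[m] g y := by
  induction m with
  | zero => intro f g h y; exact h y
  | succ m ih =>
    intro f g h y
    rw [Function.iterate_succ_apply, Function.iterate_succ_apply]
    exact ih _ _ (fun y' => A0_mono_at y' fun x => h _) y

lemma iter_const (m : ℕ) (c : ℝ) : (A0 F κ)^[m] (fun _ => c) = fun _ => c := by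
  have h0 : A0 F κ (fun _ => (0 : ℝ)) = fun _ => 0 := by
    funext y
    simp [A0, Aop]
  have hz : (A0 F κ)^[m] (fun _ => (0 : ℝ)) = fun _ => 0 := by
    induction m with
    | zero => rfl
    | succ m ih => rw [Function.iterate_succ_apply, h0, ih]
  have := iter_add_const m (fun _ : Finset κ → F => (0 : ℝ)) c
  rw [hz] at this
  simpa using this

end

lemma zf_nonneg {F : Type} [Field F] {κ : Type} [DecidableEq κ] (y : Finset κ → F) :
    0 ≤ zf y := by
  unfold zf; split_ifs <;> norm_num

lemma zf_le_one {F : Type} [Field F] {κ : Type} [DecidableEq κ] (y : Finset κ → F) :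
    zf y ≤ 1 := by
  unfold zf; split_ifs <;> norm_num

lemma p_nonneg (F : Type) [Field F] [Fintype F] (m n : ℕ) : 0 ≤ p F m n := by
  have := iter_mono (F := F) (κ := Fin n) m (fun _ => 0) zf zf_nonneg (one F (Fin n))
  rw [iter_const] at this
  exact this

theorem t_NEAR : S_BASE → S_LEML → S_NEAR := by
  intro hB hL F _ _ n N hn hN
  have hsplit : N - 1 = (N - n) + (n - 1) := by omega
  unfold p
  rw [hsplit, Function.iterate_add_apply]
  have h1 := iter_mono_deg (F := F) (κ := Fin N) hB (N - n) 0 ((A0 F (Fin N))^[n - 1] zf)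
    (fun y => zf y + p F (n - 1) n) ?_ (one F (Fin N)) (hB F (Fin N)).2.2.1
  · rw [iter_add_const] at h1
    exact h1
  · intro y hy
    rw [add_zero] at hy
    by_cases h0 : y = 0
    · have e1 : zf y = 1 := by simp [zf, h0]
      have e2 := iter_mono (F := F) (κ := Fin N) (n - 1) zf (fun _ => 1) zf_le_one y
      rw [iter_const] at e2
      have e3 := p_nonneg F (n - 1) n
      rw [e1]
      linarith
    · have e1 := hL F (Fin N) (N - n) n (n - 1) y (by rw [Fintype.card_fin]; omega) hy h0
      have e2 := zf_nonneg y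
      linarith

end Run7.h313.PM
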